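import Pool.Agent.H10.PS.Targets

/-!
# Module CLOCK: the first clock that rings
-/

set_option autoImplicit false

namespace Pool.Agent.H10.PS

open Finset

theorem CLOCK : T_CLOCK := by
  classical
  intro T _ _ A B M hM hW
  set W := A ∪ B with hWdef
  set w : ℕ := W.card with hw
  have hw0 : 0 < w := card_pos.mpr hW
  let G : T → Finset (T → Fin M) := fun t => univ.filter fun l => ∀ t' ∈ W, t' ≠ t → l t < l t'
  have hG : ∀ t l, l ∈ G t ↔ ∀ t' ∈ W, t' ≠ t → l t < l t' := by
    intro t l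
    simp [G]
  have hN : Fintype.card (T → Fin M) = M ^ Fintype.card T := by
    rw [Fintype.card_fun, Fintype.card_fin]
  -- disjointness
  have hdisj : ∀ t ∈ W, ∀ s ∈ W, t ≠ s → Disjoint (G t) (G s) := by
    intro t ht s hs hts
    rw [Finset.disjoint_left]
    intro l h1 h2
    rw [hG] at h1 h2
    have h3 := h1 s hs hts.symm
    have h4 := h2 t ht hts
    exact lt_asymm h3 h4
  -- equal cardinalities
  have hle : ∀ t ∈ W, ∀ s ∈ W, (G t).card ≤ (G s).card := by
    intro t ht s hs
    apply Finset.card_le_card_of_injOn (fun l => l ∘ Equiv.swap t s)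
    · intro l hl
      rw [mem_coe, hG] at hl
      change l ∘ Equiv.swap t s ∈ (G s : Set _)
      rw [mem_coe, hG]
      intro t' ht' hne
      simp only [Function.comp_apply, Equiv.swap_apply_right]
      by_cases h1 : t' = t
      · subst h1
        rw [Equiv.swap_apply_left]
        exact hl s hs (Ne.symm hne)
      · rw [Equiv.swap_apply_of_ne_of_ne h1 hne]
        exact hl t' ht' h1
    · intro l _ l' _ h
      funext x
      have h1 := congrFun h (Equiv.swap t s x)
      simpa using h1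
  have hsum : ∀ t ∈ W, w * (G t).card ≤ M ^ Fintype.card T := by
    intro t ht
    calc w * (G t).card = ∑ _s ∈ W, (G t).card := by rw [sum_const, smul_eq_mul]
      _ ≤ ∑ s ∈ W, (G s).card := sum_le_sum fun s hs => hle t ht s hs
      _ = (W.biUnion G).card := (card_biUnion fun s hs s' hs' hne => hdisj s hs s' hs' hne).symm
      _ ≤ (univ : Finset (T → Fin M)).card := card_le_univ _
      _ = M ^ Fintype.card T := by rw [card_univ, hN]
  -- ties
  let E : T × T → Finset (T → Fin M) := fun q => univ.filter fun l => l q.1 = l q.2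
  have hE : ∀ q ∈ W ×ˢ W, q.1 ≠ q.2 → (E q).card * M ≤ M ^ Fintype.card T := by
    intro q _ hne
    have h1 : ((E q) ×ˢ (univ : Finset (Fin M))).card ≤ (univ : Finset (T → Fin M)).card := by
      apply Finset.card_le_card_of_injOn (fun x => Function.update x.1 q.2 x.2)
      · intro x _
        exact mem_coe.mpr (mem_univ _)
      · intro x hx y hy h
        rw [mem_coe, mem_product] at hx hy
        have hx1 : x.1 q.1 = x.1 q.2 := by simpa [E] using hx.1
        have hy1 : y.1 q.1 = y.1 q.2 := by simpa [E] using hy.1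
        have h2 : ∀ s, s ≠ q.2 → x.1 s = y.1 s := by
          intro s hs
          have h3 := congrFun h s
          simpa [Function.update_of_ne hs] using h3
        have h4 : x.2 = y.2 := by
          have h3 := congrFun h q.2
          simpa using h3
        apply Prod.ext _ h4
        funext s
        by_cases hs : s = q.2
        · rw [hs, ← hx1, ← hy1]
          exact h2 _ hne
        · exact h2 s hs
    rw [card_product, card_univ, card_univ, hN, Fintype.card_fin] at h1
    exact h1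
  let EE' : Finset (T → Fin M) := ((W ×ˢ W).filter fun q => q.1 ≠ q.2).biUnion E
  have hEE : EE'.card * M ≤ w ^ 2 * M ^ Fintype.card T := by
    calc EE'.card * M ≤ (∑ q ∈ (W ×ˢ W).filter fun q => q.1 ≠ q.2, (E q).card) * M :=
          Nat.mul_le_mul_right _ card_biUnion_le
      _ = ∑ q ∈ (W ×ˢ W).filter fun q => q.1 ≠ q.2, (E q).card * M := by rw [sum_mul]
      _ ≤ ∑ _q ∈ (W ×ˢ W).filter fun q => q.1 ≠ q.2, M ^ Fintype.card T := by
          apply sum_le_sum
          intro q hq
          rw [mem_filter] at hq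
          exact hE q hq.1 hq.2
      _ = ((W ×ˢ W).filter fun q => q.1 ≠ q.2).card * M ^ Fintype.card T := by
          rw [sum_const, smul_eq_mul]
      _ ≤ (W ×ˢ W).card * M ^ Fintype.card T :=
          Nat.mul_le_mul_right _ (card_filter_le _ _)
      _ = w ^ 2 * M ^ Fintype.card T := by rw [card_product, sq]
  -- the covering
  have hcover : (univ.filter fun l : T → Fin M =>
      ¬ ∃ t ∈ A ∩ B, ∀ t' ∈ W, t' ≠ t → l t < l t') ⊆ (W \ (A ∩ B)).biUnion G ∪ EE' := by
    intro l hl
    rw [mem_filter] at hl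
    have hl2 := hl.2
    rw [mem_union, mem_biUnion]
    by_cases htie : ∃ t ∈ W, ∃ s ∈ W, t ≠ s ∧ l t = l s
    · right
      obtain ⟨t, ht, s, hs, hne, heq⟩ := htie
      rw [mem_biUnion]
      exact ⟨(t, s), mem_filter.mpr ⟨mem_product.mpr ⟨ht, hs⟩, hne⟩, by simpa [E] using heq⟩
    · left
      obtain ⟨t, ht, hmin⟩ := exists_min_image W (fun t => l t) hW
      have hlt : ∀ t' ∈ W, t' ≠ t → l t < l t' := by
        intro t' ht' hne
        apply lt_of_le_of_ne (hmin t' ht')
        intro heq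
        exact htie ⟨t, ht, t', ht', hne.symm, heq⟩
      refine ⟨t, ?_, (hG t l).mpr hlt⟩
      rw [mem_sdiff]
      exact ⟨ht, fun hAB => hl2 ⟨t, hAB, hlt⟩⟩
  have hcount : (Nat.card {l : T → Fin M // ¬ ∃ t ∈ A ∩ B, ∀ t' ∈ W, t' ≠ t → l t < l t'}) ≤
      (∑ t ∈ W \ (A ∩ B), (G t).card) + EE'.card := by
    rw [Nat.card_eq_fintype_card, Fintype.card_subtype]
    calc _ ≤ ((W \ (A ∩ B)).biUnion G ∪ EE').card := card_le_card hcover
      _ ≤ ((W \ (A ∩ B)).biUnion G).card + EE'.card := card_union_le _ _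
      _ ≤ _ := Nat.add_le_add_right card_biUnion_le _
  have hcountR : (Nat.card {l : T → Fin M // ¬ ∃ t ∈ A ∩ B, ∀ t' ∈ W, t' ≠ t → l t < l t'} : ℝ) ≤
      (∑ t ∈ W \ (A ∩ B), ((G t).card : ℝ)) + (EE'.card : ℝ) := by
    exact_mod_cast hcount
  have hMR : (0 : ℝ) < M := by exact_mod_cast hM
  have hwR : (0 : ℝ) < w := by exact_mod_cast hw0
  have hGR : ∀ t ∈ W \ (A ∩ B), ((G t).card : ℝ) ≤ (M : ℝ) ^ Fintype.card T / w := by
    intro t ht
    rw [le_div_iff₀ hwR]
    have h1 := hsum t (mem_sdiff.mp ht).1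
    have h2 : ((w * (G t).card : ℕ) : ℝ) ≤ ((M ^ Fintype.card T : ℕ) : ℝ) := by exact_mod_cast h1
    rw [Nat.cast_mul, Nat.cast_pow] at h2
    linarith
  have hER : (EE'.card : ℝ) ≤ (w : ℝ) ^ 2 * (M : ℝ) ^ Fintype.card T / M := by
    rw [le_div_iff₀ hMR]
    have h2 : ((EE'.card * M : ℕ) : ℝ) ≤ ((w ^ 2 * M ^ Fintype.card T : ℕ) : ℝ) := by
      exact_mod_cast hEE
    rw [Nat.cast_mul, Nat.cast_mul, Nat.cast_pow, Nat.cast_pow] at h2
    exact h2
  calc (Nat.card {l : T → Fin M // ¬ ∃ t ∈ A ∩ B, ∀ t' ∈ W, t' ≠ t → l t < l t'} : ℝ)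
      ≤ (∑ t ∈ W \ (A ∩ B), ((G t).card : ℝ)) + (EE'.card : ℝ) := hcountR
    _ ≤ (∑ _t ∈ W \ (A ∩ B), (M : ℝ) ^ Fintype.card T / w) +
        (w : ℝ) ^ 2 * (M : ℝ) ^ Fintype.card T / M := add_le_add (sum_le_sum hGR) hER
    _ = ((W \ (A ∩ B)).card / (w : ℝ) + (w : ℝ) ^ 2 / M) * (M : ℝ) ^ Fintype.card T := by
        rw [sum_const, nsmul_eq_mul]
        ring

end Pool.Agent.H10.PS
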