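import Pool.Agent.H10.PS.Targets

/-!
# Module VAR: a variance bound for sums of locally dependent variables
-/

set_option autoImplicit false

namespace Pool.Agent.H10.PS

open Finset

/-- exchange of coordinates in `A` -/
theorem sum_mul_sum_of_disjoint {T : Type} [Fintype T] [DecidableEq T] {M : ℕ}
    {A B : Finset T} (hAB : Disjoint A B) (X X' : (T → Fin M) → ℝ)
    (hX : ∀ l l', (∀ t ∈ A, l t = l' t) → X l = X l')
    (hX' : ∀ l l', (∀ t ∈ B, l t = l' t) → X' l = X' l') :
    (∑ l, X l) * (∑ l, X' l) = (Fintype.card (T → Fin M) : ℝ) * ∑ l, X l * X' l := by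
  classical
  let mix : (T → Fin M) → (T → Fin M) → (T → Fin M) := fun l l' t => if t ∈ A then l t else l' t
  let Φ : (T → Fin M) × (T → Fin M) → (T → Fin M) × (T → Fin M) :=
    fun q => (mix q.1 q.2, mix q.2 q.1)
  have hΦ : Function.Involutive Φ := by
    intro q
    apply Prod.ext
    · funext t
      simp only [Φ, mix]
      split_ifs <;> rfl
    · funext t
      simp only [Φ, mix]
      split_ifs <;> rfl
  have h1 : (∑ l, X l) * (∑ l, X' l) = ∑ q : (T → Fin M) × (T → Fin M), X q.1 * X' q.2 := by
    rw [Finset.sum_mul_sum, Fintype.sum_prod_type]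
  have h2 : ∀ q : (T → Fin M) × (T → Fin M), X q.1 * X' q.2 =
      (fun q : (T → Fin M) × (T → Fin M) => X q.1 * X' q.1) (hΦ.toPerm Φ q) := by
    intro q
    change X q.1 * X' q.2 = X (mix q.1 q.2) * X' (mix q.1 q.2)
    rw [hX q.1 (mix q.1 q.2), hX' q.2 (mix q.1 q.2)]
    · intro t ht
      have : t ∉ A := fun h => (Finset.disjoint_left.mp hAB) h ht
      simp [mix, this]
    · intro t ht
      simp [mix, ht]
  have h3 := Equiv.sum_comp (hΦ.toPerm Φ) (fun q : (T → Fin M) × (T → Fin M) => X q.1 * X' q.1)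
  rw [h1, Finset.sum_congr rfl fun q _ => h2 q, h3, Fintype.sum_prod_type]
  simp only [Finset.sum_const, Finset.card_univ, nsmul_eq_mul]
  rw [Finset.mul_sum]

theorem VAR : T_VAR := by
  classical
  intro Z T _ _ _ M K hM X nb hX01 hloc hK
  set N : ℝ := (M : ℝ) ^ Fintype.card T with hN
  have hN0 : 0 < N := by
    have : (0 : ℝ) < M := by exact_mod_cast hM
    positivity
  have hNc : (Fintype.card (T → Fin M) : ℝ) = N := by
    rw [Fintype.card_fun, Fintype.card_fin, Nat.cast_pow]
  set S : (T → Fin M) → ℝ := fun l => ∑ z, X z l with hS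
  set m : ℝ := (∑ l, S l) / N with hm
  have hmN : ∑ l, S l = m * N := by
    rw [hm, div_mul_cancel₀ _ hN0.ne']
  -- the variance
  have hvar : ∑ l, (S l - m) ^ 2 ≤ N * (K * Fintype.card Z) := by
    have h1 : ∑ l, (S l - m) ^ 2 = ∑ l, (S l) ^ 2 - (∑ l, S l) * (∑ l, S l) / N := by
      have : ∀ l, (S l - m) ^ 2 = S l ^ 2 - 2 * m * S l + m ^ 2 := fun l => by ring
      rw [Finset.sum_congr rfl fun l _ => this l, Finset.sum_add_distrib, Finset.sum_sub_distrib,
        ← Finset.mul_sum, Finset.sum_const, Finset.card_univ, nsmul_eq_mul, hNc, hmN]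
      field_simp
      ring
    have h2 : ∑ l, (S l) ^ 2 = ∑ z, ∑ z', ∑ l, X z l * X z' l := by
      have : ∀ l, S l ^ 2 = ∑ z, ∑ z', X z l * X z' l := by
        intro l
        rw [sq, hS, Finset.sum_mul_sum]
      rw [Finset.sum_congr rfl fun l _ => this l, Finset.sum_comm]
      apply Finset.sum_congr rfl
      intro z _
      rw [Finset.sum_comm]
    have h3 : (∑ l, S l) * (∑ l, S l) / N = ∑ z, ∑ z', (∑ l, X z l) * (∑ l, X z' l) / N := by
      have : ∑ l, S l = ∑ z, ∑ l, X z l := by
        rw [hS, Finset.sum_comm]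
      rw [this, Finset.sum_mul_sum, Finset.sum_div]
      apply Finset.sum_congr rfl
      intro z _
      rw [Finset.sum_div]
    rw [h1, h2, h3, ← Finset.sum_sub_distrib]
    have h4 : ∀ z z', (∑ l, X z l * X z' l) - (∑ l, X z l) * (∑ l, X z' l) / N ≤
        if Disjoint (nb z) (nb z') then 0 else N := by
      intro z z'
      split_ifs with hd
      · have h5 := sum_mul_sum_of_disjoint hd (X z) (X z') (hloc z) (hloc z')
        rw [hNc] at h5
        rw [h5, mul_div_cancel_left₀ _ hN0.ne', sub_self]
      · have h5 : ∑ l, X z l * X z' l ≤ N := by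
          calc ∑ l, X z l * X z' l ≤ ∑ _l : T → Fin M, (1 : ℝ) := by
                apply Finset.sum_le_sum
                intro l _
                exact mul_le_one₀ (hX01 z l).2 (hX01 z' l).1 (hX01 z' l).2
            _ = N := by rw [Finset.sum_const, Finset.card_univ, nsmul_eq_mul, mul_one, hNc]
        have h6 : 0 ≤ (∑ l, X z l) * (∑ l, X z' l) / N := by
          apply div_nonneg _ hN0.le
          exact mul_nonneg (Finset.sum_nonneg fun l _ => (hX01 z l).1)
            (Finset.sum_nonneg fun l _ => (hX01 z' l).1)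
        linarith
    calc ∑ z, (∑ z', ∑ l, X z l * X z' l - ∑ z', (∑ l, X z l) * (∑ l, X z' l) / N)
        = ∑ z, ∑ z', ((∑ l, X z l * X z' l) - (∑ l, X z l) * (∑ l, X z' l) / N) := by
          apply Finset.sum_congr rfl
          intro z _
          rw [Finset.sum_sub_distrib]
      _ ≤ ∑ z, ∑ z', (if Disjoint (nb z) (nb z') then 0 else N) :=
          Finset.sum_le_sum fun z _ => Finset.sum_le_sum fun z' _ => h4 z z'
      _ ≤ ∑ _z : Z, K * N := by
          apply Finset.sum_le_sum
          intro z _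
          have h7 : ∑ z', (if Disjoint (nb z) (nb z') then (0 : ℝ) else N) =
              ((univ.filter fun z' => ¬ Disjoint (nb z) (nb z')).card : ℝ) * N := by
            rw [← nsmul_eq_mul, ← Finset.sum_const, Finset.sum_filter]
            apply Finset.sum_congr rfl
            intro z' _
            by_cases h : Disjoint (nb z) (nb z') <;> simp [h]
          rw [h7]
          apply mul_le_mul_of_nonneg_right _ hN0.le
          have h8 := hK z
          rw [Nat.card_eq_fintype_card, Fintype.card_subtype] at h8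
          exact_mod_cast h8
      _ = N * (K * Fintype.card Z) := by
          rw [Finset.sum_const, Finset.card_univ, nsmul_eq_mul]
          ring
  -- Cauchy–Schwarz
  have hcs : (∑ l, |S l - m|) ^ 2 ≤ N * ∑ l, (S l - m) ^ 2 := by
    have h1 := sq_sum_le_card_mul_sum_sq (s := (univ : Finset (T → Fin M)))
      (f := fun l => |S l - m|)
    rw [Finset.card_univ, hNc] at h1
    simpa [sq_abs] using h1
  have hfin : (∑ l, |S l - m|) ^ 2 ≤ (N * Real.sqrt (K * Fintype.card Z)) ^ 2 := by
    rw [mul_pow, Real.sq_sqrt (by positivity)]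
    calc (∑ l, |S l - m|) ^ 2 ≤ N * ∑ l, (S l - m) ^ 2 := hcs
      _ ≤ N * (N * (K * Fintype.card Z)) := mul_le_mul_of_nonneg_left hvar hN0.le
      _ = N ^ 2 * (K * Fintype.card Z) := by ring
  exact le_of_sq_le_sq hfin (by positivity)

end Pool.Agent.H10.PS
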